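import Pool.Agent.TK.T1
import Pool.Agent.TK.T2

set_option autoImplicit false

open NumberField Ideal IsDedekindDomain ArithmeticFunction
open CM27 CMT GE TR TT

/-! # Towers of quadratic extensions: induction -/

namespace TK

theorem t3_cop_prod {L : Type} [Field L] [NumberField L] {ι : Type*} (S : Finset ι) (x : 𝓞 L)
    (y : ι → 𝓞 L) (h : ∀ i ∈ S, Cop x (y i)) : Cop x (∏ i ∈ S, y i) := by
  intro v hx hy
  obtain ⟨i, hi, hi'⟩ := (v.isPrime.prod_mem_iff).1 hy
  exact h i hi v hx hi'

/-- [TK-T3] the induction over the number of square roots.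
PROOF. Induction on `n`. `n = 0`: `hL` or `hM`. Step: `F = L(R ∪ {s_0, …, s_{n-1}}) ⊆ K` (`IntermediateField.adjoin L (R ∪ Set.range (s ∘ Fin.castSucc))`, a number field, `Type`), with the lifts of `R`, `s_i` to `F`: `adjoin_self`
(the set `{y : F | (y : K) ∈ R ∪ range ..}` is the union of the lifts). By induction `Tw L F (∏ i : Fin n, d_i)`. `K = F(s_n)` (`adjoin_step`, `R ∪ range s = insert (s n) (R ∪ range (s ∘ castSucc))`), `gen_or`: `K = F` (`Tw.iso` and `Tw.mono`) or `Q : QX F K` with `t, c` the images of `t_n, c_n`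
(`Tw.step`, with `d_n` coprime to `∏ d_i`: `cop_mul`). `Fin.prod_univ_castSucc`. -/
theorem tower_aux (L : Type) [Field L] [NumberField L]
    (hL : ∀ (K : Type) [Field K] [NumberField K] [Algebra L K],
      IntermediateField.adjoin L (∅ : Set K) = ⊤ → Tw L K 1)
    (hM : ∀ (K : Type) [Field K] [NumberField K] [Algebra L K] (r : K), r ^ 2 = -7 →
      IntermediateField.adjoin L {r} = ⊤ → Tw L K 1) :
    ∀ (n : ℕ) (K : Type) [Field K] [NumberField K] [Algebra L K] (t c : Fin n → 𝓞 L) (s : Fin n → K)
      (R : Set K), (R = ∅ ∨ ∃ r : K, r ^ 2 = -7 ∧ R = {r}) →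
      (∀ i, Adm (t i) (c i)) → (∀ i j, i ≠ j → Cop (t i ^ 2 + 4 * c i) (t j ^ 2 + 4 * c j)) →
      (∀ i, s i ^ 2 = algebraMap L K ((t i ^ 2 + 4 * c i : 𝓞 L) : L)) →
      IntermediateField.adjoin L (R ∪ Set.range s) = ⊤ →
      Tw L K (∏ i, (t i ^ 2 + 4 * c i)) := by
  intro n
  induction n with
  | zero =>
    intro K _ _ _ t c s R hR _ _ _ htop
    have hr : Set.range s = ∅ := by
      ext z
      simp
    rw [hr, Set.union_empty] at htop
    have hp : (∏ i, (t i ^ 2 + 4 * c i)) = 1 := by
      simp
    rw [hp]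
    rcases hR with rfl | ⟨r, hr1, rfl⟩
    · exact hL K htop
    · exact hM K r hr1 htop
  | succ n ih =>
    intro K _ _ _ t c s R hR hadm hcop hs htop
    set S₀ : Set K := R ∪ Set.range (fun i : Fin n => s i.castSucc) with hS₀
    have hsub := IntermediateField.subset_adjoin L S₀
    let s' : Fin n → IntermediateField.adjoin L S₀ := fun i =>
      ⟨s i.castSucc, hsub (Or.inr ⟨i, rfl⟩)⟩
    let R' : Set (IntermediateField.adjoin L S₀) := {y | (y : K) ∈ R}
    have hR' : R' = ∅ ∨ ∃ r : IntermediateField.adjoin L S₀, r ^ 2 = -7 ∧ R' = {r} := by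
      rcases hR with h | ⟨r, hr1, hr2⟩
      · left
        ext y
        simp [R', h]
      · right
        have hr : r ∈ S₀ := Or.inl (by rw [hr2]; exact rfl)
        refine ⟨⟨r, hsub hr⟩, ?_, ?_⟩
        · apply Subtype.ext
          exact hr1
        · ext y
          simp only [R', hr2, Set.mem_ofPred_eq, Set.mem_singleton_iff]
          constructor
          · intro h
            exact Subtype.ext h
          · intro h
            rw [h]
    have hset : {y : IntermediateField.adjoin L S₀ | (y : K) ∈ S₀} = R' ∪ Set.range s' := by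
      ext y
      constructor
      · rintro (h | ⟨i, hi⟩)
        · exact Or.inl h
        · exact Or.inr ⟨i, Subtype.ext hi⟩
      · rintro (h | ⟨i, hi⟩)
        · exact Or.inl h
        · exact Or.inr ⟨i, congrArg Subtype.val hi⟩
    have htop' : IntermediateField.adjoin L (R' ∪ Set.range s') = ⊤ := by
      rw [← hset]
      exact adjoin_self S₀
    have hT := ih (IntermediateField.adjoin L S₀) (fun i => t i.castSucc) (fun i => c i.castSucc) s'
      R' hR' (fun i => hadm i.castSucc)
      (fun i j hij => hcop _ _ (fun h => hij (Fin.castSucc_injective _ h)))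
      (fun i => Subtype.ext (hs i.castSucc)) htop'
    have hins : R ∪ Set.range s = insert (s (Fin.last n)) S₀ := by
      ext z
      constructor
      · rintro (h | ⟨i, rfl⟩)
        · exact Or.inr (Or.inl h)
        · induction i using Fin.lastCases with
          | last => exact Or.inl rfl
          | cast i => exact Or.inr (Or.inr ⟨i, rfl⟩)
      · rintro (h | h | ⟨i, hi⟩)
        · exact Or.inr ⟨Fin.last n, h.symm⟩
        · exact Or.inl h
        · exact Or.inr ⟨i.castSucc, hi⟩
    rw [hins] at htop
    have hstep := adjoin_step S₀ (s (Fin.last n)) htop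
    rw [Fin.prod_univ_castSucc]
    rcases gen_or (IntermediateField.adjoin L S₀) K (s (Fin.last n))
      ⟨algebraMap L (IntermediateField.adjoin L S₀)
        ((t (Fin.last n) ^ 2 + 4 * c (Fin.last n) : 𝓞 L) : L), hs (Fin.last n)⟩ hstep with hb | ⟨h1, h2⟩
    · exact (hT.iso hb).mono _
    · let Q : QX (IntermediateField.adjoin L S₀) K :=
        { t := algebraMap (𝓞 L) (𝓞 (IntermediateField.adjoin L S₀)) (t (Fin.last n))
          c := algebraMap (𝓞 L) (𝓞 (IntermediateField.adjoin L S₀)) (c (Fin.last n))
          s := s (Fin.last n)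
          hs := by
            rw [hs (Fin.last n)]
            have h4 : (algebraMap (𝓞 L) (𝓞 (IntermediateField.adjoin L S₀)) (t (Fin.last n))) ^ 2 +
                4 * algebraMap (𝓞 L) (𝓞 (IntermediateField.adjoin L S₀)) (c (Fin.last n)) =
                algebraMap (𝓞 L) (𝓞 (IntermediateField.adjoin L S₀))
                  (t (Fin.last n) ^ 2 + 4 * c (Fin.last n)) := by
              rw [map_add, map_mul, map_pow, map_ofNat]
            rw [h4]
            rfl
          gen := h2
          ns := h1 }
      exact hT.step Q (hadm (Fin.last n))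
        (t3_cop_prod _ _ _ (fun i _ => hcop _ _ (Fin.castSucc_lt_last i).ne')) rfl rfl

end TK
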