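import Pool.Agent.TK.T3
import Pool.Agent.TT.Fin

set_option autoImplicit false

open NumberField Ideal IsDedekindDomain ArithmeticFunction
open CM27 CMT GE TR TT

/-! # Towers of quadratic extensions: the two bases -/

namespace TK

section
variable {L M : Type} [Field L] [NumberField L] [Field M] [NumberField M] [Algebra L M]
  [IsTotallyReal L] (D : Dat L M)
include D

/-- [TK-T4] PROOF. `sev_of_inert D.h7`, `analytic_L'`, `finite_points'` (`WO L t c = WL t c` by definition; `algebraMap (𝓞 L) (𝓞 L) = id`). -/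
theorem tw_L : Tw L L 1 := by
  exact ⟨sev_of_inert D.h7, fun x hx _ _ => hx, fun t c h _ => analytic_L' D h,
    fun t c h _ => (finite_points' D h).2⟩

/-- [TK-T4] PROOF. `sev_M`, `sqf_M`, `analytic_M'`, `finite_points'` (`WO M (algebraMap t) (algebraMap c) = WM M t c` by definition). -/
theorem tw_M : Tw L M 1 := by
  exact ⟨sev_M D, fun x hx _ h7 => sqf_M D hx h7, fun t c h _ => analytic_M' D h,
    fun t c h _ => (finite_points' D h).1⟩

end

/-- [TK-T4] the tower theorem.
PROOF. `tower_aux`. `hL`: `exists_sqrt`, `Good.dat` (`TR/Fin.lean`), `tw_L`, `bijective_of_adjoin_empty`, `Tw.iso`. `hM`: `K = L(r)`, `gen_or` (`no_sqrt_real` excludes `K = L`), `Good.dat`, `tw_M`. -/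
theorem tower (L : Type) [Field L] [NumberField L] (hL : TR.Good L)
    (h7 : (Ideal.span {(7 : 𝓞 L)}).IsPrime) (n : ℕ) (K : Type) [Field K] [NumberField K]
    [Algebra L K] (t c : Fin n → 𝓞 L) (s : Fin n → K) (R : Set K)
    (hR : R = ∅ ∨ ∃ r : K, r ^ 2 = -7 ∧ R = {r}) (hA : ∀ i, Adm (t i) (c i))
    (hc : ∀ i j, i ≠ j → Cop (t i ^ 2 + 4 * c i) (t j ^ 2 + 4 * c j))
    (hs : ∀ i, s i ^ 2 = algebraMap L K ((t i ^ 2 + 4 * c i : 𝓞 L) : L))
    (htop : IntermediateField.adjoin L (R ∪ Set.range s) = ⊤) :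
    Tw L K (∏ i, (t i ^ 2 + 4 * c i)) := by
  have hreal : IsTotallyReal L := hL.real
  refine tower_aux L ?_ ?_ n K t c s R hR hA hc hs htop
  · intro K _ _ _ hK
    obtain ⟨M, _, _, _, r, hr, gen⟩ := exists_sqrt L
    exact (tw_L (hL.dat h7 M r hr gen)).iso (bijective_of_adjoin_empty hK)
  · intro K _ _ _ r hr hK
    have hr' : ∃ a : L, r ^ 2 = algebraMap L K a := ⟨-7, by rw [hr, map_neg, map_ofNat]⟩
    rcases gen_or L K r hr' hK with hb | ⟨-, gen⟩
    · exfalso
      obtain ⟨a, ha⟩ := hb.2 r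
      apply no_sqrt_real a
      apply (algebraMap L K).injective
      rw [map_pow, ha, hr, map_neg, map_ofNat]
    · exact tw_M (hL.dat h7 K r hr gen)

end TK
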